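import Pool.Agent.Lib.MP_6bc78b_nt.MS.QZ.Iface

/-! Module BLK of Part QZ: the norm of the truncated exponential. -/

set_option autoImplicit false

open Complex Filter Topology MeasureTheory ArithmeticFunction

namespace Pool.Agent.Lib.MP_6bc78b_nt.MS.QZ.H36

open Pool.Agent.Lib.MP_6bc78b_nt.MS Pool.Agent.Lib.MP_6bc78b_nt.MS.P1

theorem sq_sub_le (a b : ℂ) (t : ℝ) (ht : 0 < t) :
    ‖a - b‖ ^ 2 ≤ (1 + t) * ‖a‖ ^ 2 + (1 + 1 / t) * ‖b‖ ^ 2 := by
  have h1 : ‖a - b‖ ≤ ‖a‖ + ‖b‖ := norm_sub_le a b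
  have h2 : ‖a - b‖ ^ 2 ≤ (‖a‖ + ‖b‖) ^ 2 := pow_le_pow_left₀ (norm_nonneg _) h1 2
  have h3 : 0 ≤ (t * ‖a‖ - ‖b‖) ^ 2 / t := div_nonneg (sq_nonneg _) ht.le
  have h4 : (t * ‖a‖ - ‖b‖) ^ 2 / t = t * ‖a‖ ^ 2 - 2 * ‖a‖ * ‖b‖ + 1 / t * ‖b‖ ^ 2 := by
    field_simp
    ring
  rw [h4] at h3
  nlinarith [h2, h3]

theorem NN_sub_le (f g : ArithmeticFunction ℂ) (t : ℝ) (ht : 0 < t) :
    NN (f - g) ≤ ENNReal.ofReal (1 + t) * NN f + ENNReal.ofReal (1 + 1 / t) * NN g := by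
  unfold NN
  rw [← ENNReal.tsum_mul_left, ← ENNReal.tsum_mul_left, ← ENNReal.tsum_add]
  refine ENNReal.tsum_le_tsum fun n => ?_
  have h1t : (0 : ℝ) ≤ 1 + t := by linarith
  have h1t' : (0 : ℝ) ≤ 1 + 1 / t := by
    have := div_nonneg zero_le_one ht.le
    linarith
  rw [← ENNReal.ofReal_mul h1t, ← ENNReal.ofReal_mul h1t', ← ENNReal.ofReal_add
    (mul_nonneg h1t (by positivity)) (mul_nonneg h1t' (by positivity))]
  apply ENNReal.ofReal_le_ofReal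
  have hs : (f - g) n = f n - g n := rfl
  rw [hs]
  have h := sq_sub_le (f n) (g n) t ht
  calc ‖f n - g n‖ ^ 2 / (n : ℝ)
      ≤ ((1 + t) * ‖f n‖ ^ 2 + (1 + 1 / t) * ‖g n‖ ^ 2) / (n : ℝ) :=
        div_le_div_of_nonneg_right h (Nat.cast_nonneg n)
    _ = (1 + t) * (‖f n‖ ^ 2 / (n : ℝ)) + (1 + 1 / t) * (‖g n‖ ^ 2 / (n : ℝ)) := by ring

theorem blk (hF : FulStatement) (hT : TllStatement) : BlkStatement := by
  obtain ⟨C, hC, hF⟩ := hF
  refine ⟨C, hC, ?_⟩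
  intro S α z K hS h0 h1 hz
  have hf := hF S α z hS h0 h1 hz
  have ht := hT S α z K hS h0 h1 hz
  set E : ℝ := ∑ p ∈ S, ‖(α : ℂ) - (p : ℂ) ^ (-z)‖ ^ 2 / (p : ℝ) + C * rq S with hE
  set t : ℝ := Real.exp (7 * rs S - K) with htd
  have htp : 0 < t := Real.exp_pos _
  have hE0 : 0 ≤ E := by
    have hq : 0 ≤ rq S := Finset.sum_nonneg fun p _ => by positivity
    have hs : 0 ≤ ∑ p ∈ S, ‖(α : ℂ) - (p : ℂ) ^ (-z)‖ ^ 2 / (p : ℝ) :=
      Finset.sum_nonneg fun p _ => by positivity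
    have := mul_nonneg hC.le hq
    linarith
  have hE1 : 1 ≤ Real.exp E := Real.one_le_exp hE0
  have hts : Real.exp (14 * rs S - 2 * K) = t ^ 2 := by
    rw [htd, ← Real.exp_nat_mul]
    congr 1
    push_cast
    ring
  have hsplit : muz S z * toC (ac α S K) =
      muz S z * toC (ae α S) - muz S z * toC (ae α S - ac α S K) := by
    have hx : toC (ae α S - ac α S K) = toC (ae α S) - toC (ac α S K) := by
      ext n
      have h1 : (ae α S - ac α S K) n = ae α S n - ac α S K n := rfl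
      have h2 : (toC (ae α S) - toC (ac α S K)) n = toC (ae α S) n - toC (ac α S K) n := rfl
      rw [h2, toC_apply, toC_apply, toC_apply, h1]
      push_cast
      ring
    rw [hx, mul_sub]
    abel
  rw [hsplit]
  refine (NN_sub_le _ _ t htp).trans ?_
  rw [hts] at ht
  have h1t : (0 : ℝ) ≤ 1 + t := by linarith
  have h1t' : (0 : ℝ) ≤ 1 + 1 / t := by
    have := div_nonneg zero_le_one htp.le
    linarith
  calc ENNReal.ofReal (1 + t) * NN (muz S z * toC (ae α S)) +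
        ENNReal.ofReal (1 + 1 / t) * NN (muz S z * toC (ae α S - ac α S K))
      ≤ ENNReal.ofReal (1 + t) * ENNReal.ofReal (Real.exp E) +
        ENNReal.ofReal (1 + 1 / t) * ENNReal.ofReal (t ^ 2) :=
        add_le_add (mul_le_mul' le_rfl hf) (mul_le_mul' le_rfl ht)
    _ = ENNReal.ofReal ((1 + t) * Real.exp E + (1 + 1 / t) * t ^ 2) := by
        rw [← ENNReal.ofReal_mul h1t, ← ENNReal.ofReal_mul h1t', ← ENNReal.ofReal_add
          (mul_nonneg h1t (Real.exp_pos _).le) (mul_nonneg h1t' (by positivity))]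
    _ ≤ ENNReal.ofReal ((1 + t) ^ 2 * Real.exp E) := by
        apply ENNReal.ofReal_le_ofReal
        have h2 : (1 + 1 / t) * t ^ 2 = t ^ 2 + t := by
          field_simp
        rw [h2]
        nlinarith [mul_nonneg (by positivity : (0 : ℝ) ≤ t ^ 2 + t) (sub_nonneg.2 hE1)]

end Pool.Agent.Lib.MP_6bc78b_nt.MS.QZ.H36
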